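import Pool.Agent.H37.CND.Stmts

/-!
# Board `cnd`, row CVC: the data `Cvr` define a cover
-/

set_option autoImplicit false

namespace Pool.CND

open Finset

/-- a solution of a polynomial equation with integral right side is integral at the place -/
private theorem cvc_int {k L : Type} [Field k] [Field L] [Algebra k L] (P : Place k L) {x r : L}
    {n : ℕ} (hn : 2 ≤ n) (hr : P.Ge r 0) (h : x ^ n + x = r ∨ x ^ n - x = r) : P.Ge x 0 := by
  by_contra hx
  obtain ⟨hx0, hxlt⟩ := P.not_ge.1 hx
  have h1 : P.ord (x ^ n) = n * P.ord x := P.ord_pow hx0 n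
  have h2 : (n : ℤ) * P.ord x + 1 ≤ P.ord x := by
    have : (2 : ℤ) ≤ n := by exact_mod_cast hn
    nlinarith
  have hlt : P.ord (x ^ n) < 0 := by
    rw [h1]
    have : (2 : ℤ) ≤ n := by exact_mod_cast hn
    nlinarith
  have key : ∀ y : L, P.Ge y (P.ord x) → P.Ge (x ^ n + y) 0 → False := by
    intro y hy hy0
    have h3 : P.Ge y (P.ord (x ^ n) + 1) := P.ge_mono hy (by rw [h1]; exact h2)
    obtain ⟨h4, h5⟩ := P.ord_add_of_lt (pow_ne_zero n hx0) h3
    have h6 := (P.ge_iff h4 0).1 hy0
    omega
  rcases h with h | h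
  · exact key x (P.ge_ord x) (by rw [h]; exact hr)
  · refine key (-x) (P.ge_neg (P.ge_ord x)) ?_
    rw [← sub_eq_add_neg, h]
    exact hr

/-- an automorphism which fixes the place and translates an integral element by a constant -/
private theorem cvc_const {k L : Type} [Field k] [Field L] [Algebra k L] (P : Place k L)
    {g : L ≃ₐ[k] L} (hg : Fixes P g) {x : L} (hx : P.Ge x 0) {w : k}
    (h : g x = x + algebraMap k L w) : w = 0 := by
  by_contra hw
  obtain ⟨c, hc⟩ : ∃ c : k, P.Ge (x - algebraMap k L c) 1 := by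
    by_cases hx0 : x = 0
    · exact ⟨0, Or.inl (by rw [hx0, map_zero, sub_zero])⟩
    · obtain ⟨c, hc⟩ := P.residue x hx0 ((P.ge_iff hx0 0).1 hx)
      refine ⟨c, ?_⟩
      rcases hc with hc | hc
      · exact Or.inl (by rw [← hc, sub_self])
      · exact Or.inr (by omega)
  have h1 : P.Ge (g (x - algebraMap k L c)) 1 := hg.ge hc
  have h2 : algebraMap k L w = g (x - algebraMap k L c) - (x - algebraMap k L c) := by
    rw [map_sub, h, AlgEquiv.commutes]
    ring
  have h3 : P.Ge (algebraMap k L w) 1 := by
    rw [h2]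
    exact P.ge_sub h1 hc
  have h4 : algebraMap k L w ≠ 0 := by
    rw [Ne, map_eq_zero]
    exact hw
  have h5 := (P.ge_iff h4 1).1 h3
  rw [P.ord_const w hw] at h5
  omega

theorem cvc_thm (hEGC : S_EGC) : S_CVC := by
  intro p k L _ _ _ _ _ _ h m s x y ρ P hh hm hpm C
  have hp : p.Prime := Fact.out
  obtain ⟨hfin, hcard⟩ := hEGC p k h hh
  have := hfin
  have hadd : ∀ {a b : L}, a + b = a → b = 0 := fun {a b} hab => by
    linear_combination hab
  -- if `ρ g` moves neither `x` nor `y` then `g = 1`
  have hone : ∀ g : EG k p h, ρ g x = x → ρ g y = y → g = 1 := by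
    intro g hx hy
    have h1 := C.act_x g
    rw [hx] at h1
    have h2 : algebraMap k L g.w = 0 := hadd h1.symm
    have h3 : g.w = 0 := by simpa using h2
    have h4 := C.act_y g
    rw [hy, h2, Bf_zero_left, add_zero] at h4
    have h5 : algebraMap k L g.β = 0 := hadd h4.symm
    have h6 : g.β = 0 := by simpa using h5
    exact EG.ext h3 h6
  have hinj : Function.Injective ρ := by
    rw [injective_iff_map_eq_one]
    intro g hg
    exact hone g (by rw [hg]; rfl) (by rw [hg]; rfl)
  refine ⟨hinj, C.tr, ?_, ?_⟩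
  · -- the fixed field
    set K : IntermediateField k L := IntermediateField.adjoin k {s} with hK
    set H : Subgroup (L ≃ₐ[k] L) := ρ.range with hH
    have : Finite H := by
      rw [hH]
      exact Finite.of_surjective ρ.rangeRestrict ρ.rangeRestrict_surjective
    have hHcard : Nat.card H = p ^ (2 * h + 1) := by
      rw [← hcard]
      exact (Nat.card_congr (MonoidHom.ofInjective hinj).toEquiv).symm
    have hKH : K ≤ IntermediateField.fixedField H := by
      rw [hK, IntermediateField.adjoin_simple_le_iff]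
      rintro ⟨σ, g, rfl⟩
      exact C.act_s g
    have hFcard : Module.finrank (IntermediateField.fixedField H) L = p ^ (2 * h + 1) := by
      have := Fintype.ofFinite H
      rw [← hHcard, Nat.card_eq_fintype_card]
      exact FixedPoints.finrank_eq_card H L
    -- `L` is spanned by the `x ^ i y ^ j` over `K`
    have hspan : Submodule.span K (Set.range fun ij : Fin (p ^ (2 * h)) × Fin p =>
        x ^ (ij.1 : ℕ) * y ^ (ij.2 : ℕ)) = ⊤ := by
      rw [eq_top_iff]
      intro z _
      obtain ⟨c, hc, hz⟩ := C.span z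
      rw [hz]
      refine Submodule.sum_mem _ fun i _ => Submodule.sum_mem _ fun j _ => ?_
      have h1 : c i j * x ^ (i : ℕ) * y ^ (j : ℕ) =
          (⟨c i j, hc i j⟩ : K) • (x ^ (i : ℕ) * y ^ (j : ℕ)) := by
        rw [mul_assoc]
        rfl
      rw [h1]
      exact Submodule.smul_mem _ _ (Submodule.subset_span ⟨(i, j), rfl⟩)
    have hKfin : Module.finrank K L ≤ p ^ (2 * h + 1) := by
      have h1 := finrank_range_le_card (R := K) (fun ij : Fin (p ^ (2 * h)) × Fin p =>
        x ^ (ij.1 : ℕ) * y ^ (ij.2 : ℕ))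
      rw [Set.finrank, hspan, finrank_top] at h1
      simpa [pow_succ] using h1
    have : FiniteDimensional K L := by
      have hfg : (⊤ : Submodule K L).FG :=
        ⟨(Set.finite_range fun ij : Fin (p ^ (2 * h)) × Fin p =>
          x ^ (ij.1 : ℕ) * y ^ (ij.2 : ℕ)).toFinset, by
            rw [Set.Finite.coe_toFinset]
            exact hspan⟩
      exact ⟨hfg⟩
    have hEq : K = IntermediateField.fixedField H :=
      IntermediateField.eq_of_le_of_finrank_le' hKH (by rw [hFcard]; exact hKfin)
    intro z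
    rw [hEq]
    constructor
    · rintro hz ⟨σ, g, rfl⟩
      exact hz g
    · intro hz g
      exact hz ⟨ρ g, g, rfl⟩
  · -- unramified at the finite places
    intro P' hs g hg
    have hs' : P'.Ge (s ^ m) 0 := by
      refine Or.inr ?_
      rw [P'.ord_pow C.s_ne]
      positivity
    have hq : 2 ≤ p ^ (2 * h) := by
      calc 2 ≤ p := hp.two_le
        _ = p ^ 1 := (pow_one p).symm
        _ ≤ p ^ (2 * h) := Nat.pow_le_pow_right hp.pos (by omega)
    have hx : P'.Ge x 0 := cvc_int P' hq hs' (Or.inl C.eq_x)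
    have hx' : P'.Ge (x ^ (p ^ h + 1)) 0 := by
      refine Or.inr ?_
      rw [P'.ord_pow C.x_ne]
      have := (P'.ge_iff C.x_ne 0).1 hx
      positivity
    have hy : P'.Ge y 0 := cvc_int P' hp.two_le hx' (Or.inr C.eq_y)
    have hw : g.w = 0 := cvc_const P' hg hx (C.act_x g)
    have hβ : g.β = 0 := by
      refine cvc_const P' hg hy ?_
      rw [C.act_y g, hw, map_zero, Bf_zero_left, add_zero]
    exact EG.ext hw hβ

end Pool.CND
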